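import Pool.Agent.Q274.DC.Stm

/-!
# DC-CON (helper150 for helper274): points of the diagonal cubic cone by Gauss sums
-/

set_option autoImplicit false

open scoped Classical

namespace Pool.Agent.Q150.DC

open Pool.Agent.Q274.DC

namespace CON

section

variable {F : Type} [Field F] [Fintype F]

theorem cube_one {χ : MulChar F ℂ} (hχ3 : χ ^ 3 = 1) {u : F} (hu : u ≠ 0) : χ u ^ 3 = 1 := by
  rw [← MulChar.pow_apply' χ (by norm_num : 3 ≠ 0) u, hχ3, MulChar.one_apply (IsUnit.mk0 u hu)]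

/-- the cubic exponential sum -/
noncomputable def SS (ψ : AddChar F ℂ) (u : F) : ℂ := ∑ y : F, ψ (u * y ^ 3)

theorem SS_zero (ψ : AddChar F ℂ) : SS ψ 0 = (Fintype.card F : ℂ) := by
  simp [SS]

theorem SS_eq {χ : MulChar F ℂ} {ψ : AddChar F ℂ} (hχ3 : χ ^ 3 = 1)
    (hcube : ∀ u : F, (Nat.card {x : F // x ^ 3 = u} : ℂ) = 1 + χ u + (χ u) ^ 2)
    (hψ : ψ.IsPrimitive) {u : F} (hu : u ≠ 0) :
    SS ψ u = χ u * gaussSum (χ ^ 2) ψ + χ u ^ 2 * gaussSum χ ψ := by
  have h1 : SS ψ u = ∑ v : F, (1 + χ v + (χ v) ^ 2) * ψ (u * v) := by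
    unfold SS
    rw [← Finset.sum_fiberwise (s := Finset.univ) (g := fun y : F => y ^ 3)]
    refine Finset.sum_congr rfl fun v _ => ?_
    rw [← hcube v, Nat.card_eq_fintype_card, Fintype.card_subtype]
    rw [Finset.sum_congr rfl (g := fun _ => ψ (u * v)) (fun y hy => by
      rw [(Finset.mem_filter.1 hy).2])]
    rw [Finset.sum_const, nsmul_eq_mul]
  have h2 : ∑ v : F, ψ (u * v) = 0 := by
    have h := AddChar.sum_mulShift (ψ := ψ) u hψ
    rw [if_neg hu, Nat.cast_zero] at h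
    rw [← h]
    exact Finset.sum_congr rfl fun v _ => by rw [mul_comm]
  have hχu : χ u ≠ 0 := by
    intro h0
    have := cube_one hχ3 hu
    rw [h0] at this
    norm_num at this
  have h3 : ∑ v : F, χ v * ψ (u * v) = χ u ^ 2 * gaussSum χ ψ := by
    have h := gaussSum_mulShift χ ψ (Units.mk0 u hu)
    rw [Units.val_mk0] at h
    have h' : gaussSum χ (AddChar.mulShift ψ u) = ∑ v : F, χ v * ψ (u * v) := by
      simp only [gaussSum, AddChar.mulShift_apply]
    rw [h'] at h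
    rw [← h]
    have := cube_one hχ3 hu
    linear_combination (-∑ v : F, χ v * ψ (u * v)) * this
  have h4 : ∑ v : F, (χ v) ^ 2 * ψ (u * v) = χ u * gaussSum (χ ^ 2) ψ := by
    have h := gaussSum_mulShift (χ ^ 2) ψ (Units.mk0 u hu)
    rw [Units.val_mk0] at h
    have h' : gaussSum (χ ^ 2) (AddChar.mulShift ψ u) = ∑ v : F, (χ v) ^ 2 * ψ (u * v) := by
      simp only [gaussSum, AddChar.mulShift_apply, MulChar.pow_apply' χ two_ne_zero]
    rw [h', MulChar.pow_apply' χ two_ne_zero] at h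
    rw [← h]
    have := cube_one hχ3 hu
    linear_combination (-∑ v : F, (χ v) ^ 2 * ψ (u * v)) * this
  rw [h1]
  simp only [add_mul, one_mul, Finset.sum_add_distrib]
  rw [h2, h3, h4]
  ring

theorem map_sum_eq {ι : Type} (ψ : AddChar F ℂ) (T : Finset ι) (f : ι → F) :
    ψ (∑ i ∈ T, f i) = ∏ i ∈ T, ψ (f i) := by
  induction T using Finset.induction_on with
  | empty => simp
  | insert i T hi ih => rw [Finset.sum_insert hi, Finset.prod_insert hi, AddChar.map_add_eq_mul, ih]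

/-- `q N` as a sum of products -/
theorem card_mul {ψ : AddChar F ℂ} (hψ : ψ.IsPrimitive) {n : ℕ} (a : Fin n → F) :
    (Fintype.card F : ℂ) * (cone a : ℂ) = ∑ s : F, ∏ i, SS ψ (s * a i) := by
  have h1 : ∀ s : F, ∏ i, SS ψ (s * a i) = ∑ x : Fin n → F, ψ (s * ∑ i, a i * x i ^ 3) := by
    intro s
    unfold SS
    rw [Fintype.prod_sum]
    refine Finset.sum_congr rfl fun x _ => ?_
    rw [Finset.mul_sum, map_sum_eq]
    refine Finset.prod_congr rfl fun i _ => ?_
    rw [mul_assoc]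
  simp only [h1]
  rw [Finset.sum_comm]
  have h2 : ∀ x : Fin n → F, ∑ s : F, ψ (s * ∑ i, a i * x i ^ 3) =
      if ∑ i, a i * x i ^ 3 = 0 then (Fintype.card F : ℂ) else 0 := by
    intro x
    rw [AddChar.sum_mulShift _ hψ]
    split_ifs <;> simp
  simp only [h2]
  rw [← Finset.sum_filter, Finset.sum_const, nsmul_eq_mul, mul_comm]
  congr 1
  unfold cone
  rw [Nat.card_eq_fintype_card, Fintype.card_subtype]
  push_cast
  rfl

/-- sums of powers of the character -/
theorem sum_pow {χ : MulChar F ℂ} (hχ1 : χ ≠ 1) (hχ3 : χ ^ 3 = 1) {m : ℕ} (hm : m ≠ 0) :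
    ∑ s ∈ Finset.univ.erase (0 : F), χ s ^ m =
      if m % 3 = 0 then (Fintype.card F : ℂ) - 1 else 0 := by
  split_ifs with h
  · have h1 : ∀ s ∈ Finset.univ.erase (0 : F), χ s ^ m = 1 := by
      intro s hs
      obtain ⟨k, hk⟩ := Nat.dvd_of_mod_eq_zero h
      rw [hk, pow_mul, cube_one hχ3 (Finset.ne_of_mem_erase hs), one_pow]
    rw [Finset.sum_congr rfl h1, Finset.sum_const, nsmul_eq_mul, mul_one,
      Finset.card_erase_of_mem (Finset.mem_univ _), Finset.card_univ,
      Nat.cast_sub Fintype.card_pos, Nat.cast_one]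
  · have h1 : χ ^ m ≠ 1 := by
      intro h1
      apply hχ1
      have h2 : orderOf χ ∣ m := orderOf_dvd_of_pow_eq_one h1
      have h3 : orderOf χ ∣ 3 := orderOf_dvd_of_pow_eq_one hχ3
      rcases (Nat.dvd_prime Nat.prime_three).1 h3 with h4 | h4
      · exact orderOf_eq_one_iff.1 h4
      · rw [h4] at h2
        exact absurd (Nat.mod_eq_zero_of_dvd h2) h
    have h2 := MulChar.sum_eq_zero_of_ne_one h1
    rw [← Finset.add_sum_erase Finset.univ _ (Finset.mem_univ (0 : F))] at h2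
    simp only [MulChar.pow_apply' χ hm] at h2
    rw [MulChar.map_zero, zero_pow hm, zero_add] at h2
    exact h2

end

end CON

open CON

theorem con : S_CON := by
  intro F _ _ χ ψ hχ1 hχ3 hcube hψ t a ha
  obtain ⟨n, hn⟩ : ∃ n, n = 2 * t + 3 := ⟨_, rfl⟩
  rw [card_mul hψ a, ← Finset.add_sum_erase Finset.univ _ (Finset.mem_univ (0 : F))]
  congr 1
  · simp only [zero_mul, SS_zero, Finset.prod_const, Finset.card_univ, Fintype.card_fin]
  -- the terms
  have hterm : ∀ s ∈ Finset.univ.erase (0 : F), ∏ i, SS ψ (s * a i) =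
      ∑ J : Finset (Fin (2 * t + 3)), gaussSum χ ψ ^ (2 * t + 3 - J.card) *
        gaussSum (χ ^ 2) ψ ^ J.card * χ (dJ a J) ^ 2 * χ s ^ (2 * (2 * t + 3) - J.card) := by
    intro s hs
    have hs0 : s ≠ 0 := Finset.ne_of_mem_erase hs
    have h1 : ∀ i, SS ψ (s * a i) = χ (s * a i) * gaussSum (χ ^ 2) ψ +
        χ (s * a i) ^ 2 * gaussSum χ ψ := fun i => SS_eq hχ3 hcube hψ (mul_ne_zero hs0 (ha i))
    simp only [h1]
    rw [Fintype.prod_add]
    refine Finset.sum_congr rfl fun J _ => ?_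
    have hJ : J.card ≤ 2 * t + 3 := by
      have := Finset.card_le_univ J
      rwa [Fintype.card_fin] at this
    have hJc : Jᶜ.card = 2 * t + 3 - J.card := by
      rw [Finset.card_compl, Fintype.card_fin]
    rw [Finset.prod_mul_distrib, Finset.prod_mul_distrib, Finset.prod_const, Finset.prod_const, hJc]
    simp only [map_mul, mul_pow]
    rw [Finset.prod_mul_distrib, Finset.prod_mul_distrib, Finset.prod_const, Finset.prod_const, hJc]
    -- the characters of the coefficients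
    have h2 : (∏ i ∈ J, χ (a i)) * ∏ i ∈ Jᶜ, χ (a i) ^ 2 = χ (dJ a J) ^ 2 := by
      have e1 : ∏ i ∈ J, χ (a i) = χ (∏ i ∈ J, a i) := (map_prod χ _ _).symm
      have e2 : ∏ i ∈ Jᶜ, χ (a i) ^ 2 = χ (∏ i ∈ Jᶜ, a i) ^ 2 := by
        rw [Finset.prod_pow, map_prod]
      have e3 : dJ a J = (∏ i ∈ J, a i) * (∏ i ∈ Jᶜ, a i) * ∏ i ∈ J, a i := by
        unfold dJ
        rw [Finset.prod_mul_prod_compl]
      have e4 : (∏ i ∈ J, a i) ≠ 0 := Finset.prod_ne_zero_iff.2 fun i _ => ha i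
      have e5 := cube_one hχ3 e4
      rw [e1, e2, e3, map_mul, map_mul]
      linear_combination (-(χ (∏ i ∈ J, a i)) * χ (∏ i ∈ Jᶜ, a i) ^ 2) * e5
    have h3 : χ s ^ (2 * (2 * t + 3) - J.card) = χ s ^ J.card * (χ s ^ 2) ^ (2 * t + 3 - J.card) := by
      rw [← pow_mul, ← pow_add]
      congr 1
      omega
    rw [← h2, h3]
    ring
  rw [Finset.sum_congr rfl hterm, Finset.sum_comm]
  simp only [← Finset.mul_sum]
  rw [Finset.mul_sum, Finset.sum_filter]
  refine Finset.sum_congr rfl fun J _ => ?_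
  have hJ : J.card ≤ 2 * t + 3 := by
    have := Finset.card_le_univ J
    rwa [Fintype.card_fin] at this
  rw [sum_pow hχ1 hχ3 (by omega)]
  by_cases h : J.card % 3 = t % 3
  · rw [if_pos h, if_pos (by omega)]
    ring
  · rw [if_neg h, if_neg (by omega)]
    ring

end Pool.Agent.Q150.DC
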